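import Pool.Agent.R563.PCl.Main

set_option autoImplicit false

/-!
# MP_d47e79_lc, Q1: degree `C log² n` succeeds for planted clique below `√n`

For every `a ∈ (0, 1)`, in particular for every `a ∈ (0, 1/2)`, and every `k = Θ(n^a)` there is a
constant `C` such that polynomials of degree `⌈C log² n⌉` strongly separate the planted and the null
model and achieve mean squared error `o(1/n)`.

Detection counts the cliques on `r = Θ(log n)` vertices. Recovery splits the other vertices into two
blocks, counts in each block the `r`-sets forming a clique together with the first vertex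
(normalized to have mean at least `1` if the first vertex is in `S`), getting `W₁` and `W₂`, and
outputs `1 - (1 - W₁) (1 - W₂)`; given the first vertex is in `S` the two factors are independent.
-/

namespace Pool.Agent.Results.MP_d47e79_lc.LogSquaredSucceeds

open Filter Asymptotics Pool.Agent.R563.PCl

/-! `Edge n` is the set of pairs of vertices, `StronglySeparates k f` is strong separation of the
planted model with parameters `k n` and `G(n, 1/2)` by the polynomials `f n`, and `MMSE n p D` is
the minimum mean squared error in degree `D`, when every vertex is planted with probability `p`. -/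

theorem result (a : ℝ) (ha : 0 < a) (ha1 : a < 1) (k : ℕ → ℝ) (hk0 : ∀ n, 0 ≤ k n)
    (hkn : ∀ n, k n ≤ n) (hk : k =Θ[atTop] fun n : ℕ => (n : ℝ) ^ a) :
    ∃ C : ℝ,
      (∃ f : (n : ℕ) → MvPolynomial (Edge n) ℝ,
        (∀ n, (f n).totalDegree ≤ ⌈C * (Real.log n) ^ 2⌉₊) ∧ StronglySeparates k f) ∧
      (fun n : ℕ => MMSE n (k n / n) ⌈C * (Real.log n) ^ 2⌉₊) =o[atTop] fun n : ℕ => 1 / (n : ℝ) :=
  main ha ha1 hk0 hkn hk

end Pool.Agent.Results.MP_d47e79_lc.LogSquaredSucceeds
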